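import Pool.Agent.Lib.MP_100a6c_lc.IfaceV

/-!
# CORE: the combinatorial heart of the preservation theorem
-/

universe u

open Cardinal

namespace Pool.Agent.Lib.MP_100a6c_lc.H36

/-- A small family of sets is separated by a small set. -/
theorem exists_sep {I : Type u} {c : Cardinal.{u}} (hc : ℵ₀ ≤ c) (F : Set (Set I))
    (hF : #F ≤ c) :
    ∃ z : Set I, #z ≤ c ∧ ∀ x ∈ F, ∀ y ∈ F, x ≠ y → ∃ i ∈ z, ¬ (i ∈ x ↔ i ∈ y) := by
  classical
  rcases isEmpty_or_nonempty I with hI | hI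
  · refine ⟨∅, by simp, ?_⟩
    intro x _ y _ hxy
    exact absurd (Set.ext fun i => hI.elim i) hxy
  · have key : ∀ x y : Set I, x ≠ y → ∃ i, ¬ (i ∈ x ↔ i ∈ y) := by
      intro x y hxy
      by_contra h
      push Not at h
      exact hxy (Set.ext h)
    let g : F × F → I := fun p =>
      if h : p.1.1 ≠ p.2.1 then Classical.choose (key _ _ h) else Classical.arbitrary I
    refine ⟨Set.range g, ?_, ?_⟩
    · refine Cardinal.mk_range_le.trans ?_
      rw [Cardinal.mk_prod, Cardinal.lift_id]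
      exact (mul_le_mul' hF hF).trans (Cardinal.mul_eq_self hc).le
    · intro x hx y hy hxy
      refine ⟨g (⟨x, hx⟩, ⟨y, hy⟩), Set.mem_range_self _, ?_⟩
      have : g (⟨x, hx⟩, ⟨y, hy⟩) = Classical.choose (key x y hxy) := by
        simp only [g]
        rw [dif_pos hxy]
      rw [this]
      exact Classical.choose_spec (key x y hxy)

/-- A union of few small sets is small. -/
theorem mk_biUnion_small {I : Type u} {c : Cardinal.{u}} (hc : ℵ₀ ≤ c) (F : Set (Set I))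
    (hF : #F ≤ c) : #(⋃ z ∈ {z ∈ F | #z ≤ c}, z : Set I) ≤ c := by
  have h1 := Cardinal.mk_biUnion_le (fun z : Set I => z) {z ∈ F | #z ≤ c}
  refine h1.trans ?_
  have h2 : #({z ∈ F | #z ≤ c} : Set (Set I)) ≤ c :=
    (Cardinal.mk_le_mk_of_subset (fun _ h => h.1)).trans hF
  refine (mul_le_mul' h2 ?_).trans (Cardinal.mul_eq_self hc).le
  exact ciSup_le' fun z => z.2.2

section ult

variable {B : Type u} [BooleanAlgebra B] {U : Set B}

theorem ult_inf_iff (h : IsUlt U) {a b : B} : a ⊓ b ∈ U ↔ a ∈ U ∧ b ∈ U :=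
  ⟨fun hab => ⟨h.up _ hab _ inf_le_left, h.up _ hab _ inf_le_right⟩,
    fun hab => h.inf _ hab.1 _ hab.2⟩

theorem ult_compl_iff (h : IsUlt U) {a : B} : aᶜ ∈ U ↔ a ∉ U := by
  constructor
  · intro h1 h2
    have := h.inf _ h2 _ h1
    rw [inf_compl_self] at this
    exact h.bot this
  · intro h1
    exact (h.compl a).resolve_left h1

/-- If `p ∈ U` decides `a` and `b` to be equal then `U` contains both or none. -/
theorem ult_congr (h : IsUlt U) {p a b : B} (hp : p ∈ U) (hab : p ⊓ a = p ⊓ b) :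
    a ∈ U ↔ b ∈ U := by
  constructor
  · intro ha
    have : p ⊓ a ∈ U := h.inf _ hp _ ha
    rw [hab] at this
    exact h.up _ this _ inf_le_right
  · intro hb
    have : p ⊓ b ∈ U := h.inf _ hp _ hb
    rw [← hab] at this
    exact h.up _ this _ inf_le_right

end ult

section rule

variable {I B K : Type u} [CompleteBooleanAlgebra B] (c : Cardinal.{u}) (E : I → I → B)
  (U : K → Set B)

open Classical in
/-- A small set separating the members of a small family. -/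
noncomputable def sep (F : Set (Set I)) : Set I :=
  if h : ∃ z : Set I, #z ≤ c ∧ ∀ x ∈ F, ∀ y ∈ F, x ≠ y → ∃ i ∈ z, ¬ (i ∈ x ↔ i ∈ y) then
    Classical.choose h else ∅

theorem sep_spec (hc : ℵ₀ ≤ c) (F : Set (Set I)) (hF : #F ≤ c) :
    #(sep c F) ≤ c ∧ ∀ x ∈ F, ∀ y ∈ F, x ≠ y → ∃ i ∈ sep c F, ¬ (i ∈ x ↔ i ∈ y) := by
  have h := exists_sep hc F hF
  rw [sep, dif_pos h]
  exact Classical.choose_spec h

open Classical in
/-- The label computed from a family, a separating set and a function. -/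
noncomputable def label (F : Set (Set I)) (z : Set I) (t : I → B) (k : K) : Set I :=
  if h : ∃ x ∈ F, ∀ i ∈ z, i ∈ x ↔ t i ∈ U k then Classical.choose h else ∅

omit [CompleteBooleanAlgebra B] in
theorem label_eq {F : Set (Set I)} {z : Set I} {t : I → B} {k : K}
    (hsep : ∀ x ∈ F, ∀ y ∈ F, x ≠ y → ∃ i ∈ z, ¬ (i ∈ x ↔ i ∈ y)) {x : Set I} (hx : x ∈ F)
    (hxz : ∀ i ∈ z, i ∈ x ↔ t i ∈ U k) : label U F z t k = x := by
  have h : ∃ x ∈ F, ∀ i ∈ z, i ∈ x ↔ t i ∈ U k := ⟨x, hx, hxz⟩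
  rw [label, dif_pos h]
  obtain ⟨h1, h2⟩ := Classical.choose_spec h
  by_contra hne
  obtain ⟨i, hi, hi'⟩ := hsep _ h1 _ hx hne
  exact hi' ((h2 i hi).trans (hxz i hi).symm)

/-- The closure rule. -/
inductive Rule : List (Om I B K) → Om I B K → Prop
  | zero : Rule [] (Om.sub ∅)
  | elt (z : Set I) (hz : #z ≤ c) (i : I) (hi : i ∈ z) : Rule [Om.sub z] (Om.idx i)
  | cut (z : Set I) (t : I → B) (k : K) :
      Rule [Om.sub z, Om.fn t] (Om.sub {i ∈ z | t i ∈ U k})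
  | sep (F : Set (Set I)) : Rule [Om.fam F] (Om.sub (sep c F))
  | union (z z' : Set I) : Rule [Om.sub z, Om.sub z'] (Om.sub (z ∪ z'))
  | bigUnion (F : Set (Set I)) : Rule [Om.fam F] (Om.sub (⋃ z ∈ {z ∈ F | #z ≤ c}, z))
  | lab (F : Set (Set I)) (z : Set I) (t : I → B) :
      Rule [Om.fam F, Om.sub z, Om.fn t] (Om.lab (label U F z t))
  | left (e : K → Set I) (k : K)
      (h : ∃ p : I × I, E p.1 p.2 ∈ U k ∧ p.1 ∈ e k ∧ p.2 ∉ e k) :
      Rule [Om.lab e] (Om.idx (Classical.choose h).1)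
  | right (e : K → Set I) (k : K)
      (h : ∃ p : I × I, E p.1 p.2 ∈ U k ∧ p.1 ∈ e k ∧ p.2 ∉ e k) :
      Rule [Om.lab e] (Om.idx (Classical.choose h).2)

/-- A set covered by the range of a function from a small type is small. -/
theorem mk_le_of_cover {α ι : Type u} {s : Set α} {c : Cardinal.{u}} (hι : #ι ≤ c) (f : ι → α)
    (h : ∀ x ∈ s, ∃ i, f i = x) : #s ≤ c :=
  (Cardinal.mk_le_mk_of_subset (fun x hx => h x hx)).trans
    ((Cardinal.mk_range_le (f := f)).trans hι)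

omit [CompleteBooleanAlgebra B] in
theorem mk_rule (hc : ℵ₀ ≤ c) (hK : #K = c) (l : List (Om I B K)) :
    #({x | Rule c E U l x} : Set (Om I B K)) ≤ c := by
  classical
  have hc1 : (1 : Cardinal.{u}) ≤ c := Cardinal.one_le_aleph0.trans hc
  have hsub : ∀ {α : Type u} (s : Set α), s.Subsingleton → #s ≤ c := by
    intro α s hs
    exact (Cardinal.mk_le_one_iff_set_subsingleton.2 hs).trans hc1
  have hfin : ∀ {α : Type u} (s : Set α), s.Finite → #s ≤ c := fun s hs =>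
    (Cardinal.lt_aleph0_iff_set_finite.2 hs).le.trans hc
  match l with
  | [] =>
    refine hsub _ ?_
    intro x hx y hy
    cases hx
    cases hy
    rfl
  | [Om.sub z] =>
    by_cases hz : #z ≤ c
    · refine mk_le_of_cover hz (fun i : z => Om.idx i.1) ?_
      intro x hx
      cases hx with
      | elt z hz i hi => exact ⟨⟨i, hi⟩, rfl⟩
    · refine hsub _ ?_
      intro x hx
      cases hx with
      | elt z hz' i hi => exact absurd hz' hz
  | [Om.sub z, Om.fn t] =>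
    refine mk_le_of_cover hK.le (fun k : K => (Om.sub {i ∈ z | t i ∈ U k} : Om I B K)) ?_
    intro x hx
    cases hx with
    | cut z t k => exact ⟨k, rfl⟩
  | [Om.fam F] =>
    refine hfin _ (Set.Finite.subset (Set.toFinite
      {(Om.sub (sep c F) : Om I B K), Om.sub (⋃ z ∈ {z ∈ F | #z ≤ c}, z)}) ?_)
    intro x hx
    cases hx with
    | sep F => simp
    | bigUnion F => simp
  | [Om.sub z, Om.sub z'] =>
    refine hsub _ ?_
    intro x hx y hy
    cases hx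
    cases hy
    rfl
  | [Om.fam F, Om.sub z, Om.fn t] =>
    refine hsub _ ?_
    intro x hx y hy
    cases hx
    cases hy
    rfl
  | [Om.lab e] =>
    have h1 : #({x | ∃ (k : K) (h : ∃ p : I × I, E p.1 p.2 ∈ U k ∧ p.1 ∈ e k ∧ p.2 ∉ e k),
        x = Om.idx (Classical.choose h).1} : Set (Om I B K)) ≤ c := by
      have hK' : #{k : K // ∃ p : I × I, E p.1 p.2 ∈ U k ∧ p.1 ∈ e k ∧ p.2 ∉ e k} ≤ c :=
        (Cardinal.mk_subtype_le _).trans hK.le
      refine mk_le_of_cover hK' (fun k => Om.idx (Classical.choose k.2).1) ?_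
      rintro x ⟨k, h, rfl⟩
      exact ⟨⟨k, h⟩, rfl⟩
    have h2 : #({x | ∃ (k : K) (h : ∃ p : I × I, E p.1 p.2 ∈ U k ∧ p.1 ∈ e k ∧ p.2 ∉ e k),
        x = Om.idx (Classical.choose h).2} : Set (Om I B K)) ≤ c := by
      have hK' : #{k : K // ∃ p : I × I, E p.1 p.2 ∈ U k ∧ p.1 ∈ e k ∧ p.2 ∉ e k} ≤ c :=
        (Cardinal.mk_subtype_le _).trans hK.le
      refine mk_le_of_cover hK' (fun k => Om.idx (Classical.choose k.2).2) ?_
      rintro x ⟨k, h, rfl⟩
      exact ⟨⟨k, h⟩, rfl⟩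
    refine (Cardinal.mk_le_mk_of_subset (t := _ ∪ _) ?_).trans ((Cardinal.mk_union_le _ _).trans
      ((add_le_add h1 h2).trans (Cardinal.add_eq_self hc).le))
    intro x hx
    cases hx with
    | left e k h => exact Or.inl ⟨k, h, rfl⟩
    | right e k h => exact Or.inr ⟨k, h, rfl⟩
  | [Om.idx _] => exact hsub _ fun x hx => nomatch hx
  | [Om.fn _] => exact hsub _ fun x hx => nomatch hx
  | [Om.sub _, Om.idx _] => exact hsub _ fun x hx => nomatch hx
  | [Om.sub _, Om.fam _] => exact hsub _ fun x hx => nomatch hx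
  | [Om.sub _, Om.lab _] => exact hsub _ fun x hx => nomatch hx
  | Om.idx _ :: _ :: _ => exact hsub _ fun x hx => nomatch hx
  | Om.fn _ :: _ :: _ => exact hsub _ fun x hx => nomatch hx
  | Om.lab _ :: _ :: _ => exact hsub _ fun x hx => nomatch hx
  | Om.sub _ :: _ :: _ :: _ => exact hsub _ fun x hx => nomatch hx
  | [Om.fam _, _] => exact hsub _ fun x hx => nomatch hx
  | Om.fam _ :: Om.idx _ :: _ :: _ => exact hsub _ fun x hx => nomatch hx
  | Om.fam _ :: Om.fn _ :: _ :: _ => exact hsub _ fun x hx => nomatch hx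
  | Om.fam _ :: Om.lab _ :: _ :: _ => exact hsub _ fun x hx => nomatch hx
  | Om.fam _ :: Om.fam _ :: _ :: _ => exact hsub _ fun x hx => nomatch hx
  | [Om.fam _, Om.sub _, Om.idx _] => exact hsub _ fun x hx => nomatch hx
  | [Om.fam _, Om.sub _, Om.sub _] => exact hsub _ fun x hx => nomatch hx
  | [Om.fam _, Om.sub _, Om.fam _] => exact hsub _ fun x hx => nomatch hx
  | [Om.fam _, Om.sub _, Om.lab _] => exact hsub _ fun x hx => nomatch hx
  | Om.fam _ :: Om.sub _ :: _ :: _ :: _ => exact hsub _ fun x hx => nomatch hx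

end rule

/-- The part of the argument inside one model. -/
theorem core_one {I B K : Type u} [CompleteBooleanAlgebra B] {c : Cardinal.{u}} (hc : ℵ₀ ≤ c)
    {E : I → I → B} {U : K → Set B} (hU : ∀ k, IsUlt (U k))
    {M : Set (Om I B K)} (hM : GS c M)
    (hR : RClosed (fun l => {x | Rule c E U l x}) M) {q : B} {b : I → B} (hq : q ≠ ⊥)
    (hb : ∀ i j, b i ⊓ E i j ≤ b j)
    (hdec : ∀ z : Set I, #z ≤ c → Om.sub z ∈ M → ∀ p ≤ q, p ≠ ⊥ →
        ∃ p' ≤ p, p' ≠ ⊥ ∧ ∃ t : I → B, Om.fn t ∈ M ∧ ∀ i ∈ z, p' ⊓ b i = p' ⊓ t i) :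
    ∃ e : K → Set I, Om.lab e ∈ M ∧ ∃ p ≤ q, p ≠ ⊥ ∧
      (∀ k, p ∈ U k → ∀ i, Om.idx i ∈ M → (b i ∈ U k ↔ i ∈ e k)) ∧
      ∀ k, p ∈ U k → ∀ i j, E i j ∈ U k → i ∈ e k → j ∈ e k := by
  classical
  -- closure under the rules
  have r0 : Om.sub ∅ ∈ M := hR [] (by simp) Rule.zero
  have r1 : ∀ z : Set I, Om.sub z ∈ M → #z ≤ c → ∀ i ∈ z, Om.idx i ∈ M := fun z hz hzc i hi =>
    hR [Om.sub z] (by simpa using hz) (Rule.elt z hzc i hi)
  have r2 : ∀ (z : Set I) (t : I → B) (k : K), Om.sub z ∈ M → Om.fn t ∈ M →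
      Om.sub {i ∈ z | t i ∈ U k} ∈ M := fun z t k hz ht =>
    hR [Om.sub z, Om.fn t] (by simp [hz, ht]) (Rule.cut z t k)
  have r3 : ∀ F : Set (Set I), Om.fam F ∈ M → Om.sub (sep c F) ∈ M := fun F hF =>
    hR [Om.fam F] (by simpa using hF) (Rule.sep F)
  have r4 : ∀ z z' : Set I, Om.sub z ∈ M → Om.sub z' ∈ M → Om.sub (z ∪ z') ∈ M :=
    fun z z' hz hz' => hR [Om.sub z, Om.sub z'] (by simp [hz, hz']) (Rule.union z z')
  have r5 : ∀ F : Set (Set I), Om.fam F ∈ M → Om.sub (⋃ z ∈ {z ∈ F | #z ≤ c}, z) ∈ M :=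
    fun F hF => hR [Om.fam F] (by simpa using hF) (Rule.bigUnion F)
  have r6 : ∀ (F : Set (Set I)) (z : Set I) (t : I → B), Om.fam F ∈ M → Om.sub z ∈ M →
      Om.fn t ∈ M → Om.lab (label U F z t) ∈ M := fun F z t hF hz ht =>
    hR [Om.fam F, Om.sub z, Om.fn t] (by simp [hF, hz, ht]) (Rule.lab F z t)
  -- the set of `k` such that `U k` meets `Δ_z`
  let Δ : Set I → Set B := fun z => {p | p ≤ q ∧ p ≠ ⊥ ∧ ∃ t : I → B, Om.fn t ∈ M ∧
    ∀ i ∈ z, p ⊓ b i = p ⊓ t i}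
  have Δmono : ∀ z z' : Set I, z ⊆ z' → Δ z' ⊆ Δ z := by
    rintro z z' hzz p ⟨h1, h2, t, h3, h4⟩
    exact ⟨h1, h2, t, h3, fun i hi => h4 i (hzz hi)⟩
  let good : K → Prop := fun k => ∀ z : Set I, Om.sub z ∈ M → #z ≤ c → ∃ p ∈ Δ z, p ∈ U k
  -- one set `z₀` is enough
  obtain ⟨z0, hz0c, hz0M, hz0⟩ : ∃ z0 : Set I, #z0 ≤ c ∧ Om.sub z0 ∈ M ∧
      ∀ k, (∃ p ∈ Δ z0, p ∈ U k) → good k := by
    have h1 : ∀ k : K, ∃ z : Set I, Om.sub z ∈ M ∧ #z ≤ c ∧
        ((∃ p ∈ Δ z, p ∈ U k) → good k) := by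
      intro k
      by_cases hk : good k
      · exact ⟨∅, r0, by simp, fun _ => hk⟩
      · have hk' := hk
        simp only [good] at hk'
        push Not at hk'
        obtain ⟨z, hz1, hz2, hz3⟩ := hk'
        refine ⟨z, hz1, hz2, ?_⟩
        rintro ⟨p, hp, hpU⟩
        exact absurd hpU (hz3 p hp)
    choose zk hzk1 hzk2 hzk3 using h1
    obtain ⟨Z, hZc, hZM, hZ⟩ := hM.cov2 zk hzk1
    refine ⟨_, mk_biUnion_small hc Z hZc, r5 Z hZM, ?_⟩
    rintro k ⟨p, hp, hpU⟩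
    refine hzk3 k ⟨p, Δmono _ _ ?_ hp, hpU⟩
    intro i hi
    simp only [Set.mem_iUnion]
    exact ⟨zk k, ⟨hZ k, hzk2 k⟩, hi⟩
  -- guesses
  have hg : ∀ k : K, ∃ e : Set I, Om.sub e ∈ M ∧
      (good k → ∀ i, Om.idx i ∈ M → (b i ∈ U k ↔ i ∈ e)) := by
    intro k
    by_cases hk : good k
    · obtain ⟨e, he1, he2⟩ := hM.guess {i | b i ∈ U k} (by
        intro z hzc hzM
        obtain ⟨p, ⟨hp1, hp2, t, ht, hpt⟩, hpU⟩ := hk z hzM hzc
        have : ({i | b i ∈ U k} ∩ z : Set I) = {i ∈ z | t i ∈ U k} := by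
          ext i
          simp only [Set.mem_inter_iff, Set.mem_ofPred_eq]
          constructor
          · rintro ⟨h1, h2⟩
            exact ⟨h2, (ult_congr (hU k) hpU (hpt i h2)).1 h1⟩
          · rintro ⟨h1, h2⟩
            exact ⟨(ult_congr (hU k) hpU (hpt i h1)).2 h2, h1⟩
        rw [this]
        exact r2 z t k hzM ht)
      exact ⟨e, he1, fun _ i hi => he2 i hi⟩
    · exact ⟨∅, r0, fun h => absurd h hk⟩
  choose ek hek1 hek2 using hg
  obtain ⟨F, hFc, hFM, hF⟩ := hM.cov2 ek hek1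
  obtain ⟨hz1c, hz1⟩ := sep_spec c hc F hFc
  have hz1M := r3 F hFM
  obtain ⟨p, hpq, hp0, t, ht, hpt⟩ := hdec (z0 ∪ sep c F)
    ((Cardinal.mk_union_le _ _).trans ((add_le_add hz0c hz1c).trans (Cardinal.add_eq_self hc).le))
    (r4 _ _ hz0M hz1M) q le_rfl hq
  have hlab : Om.lab (label U F (sep c F) t) ∈ M := r6 F _ t hFM hz1M ht
  have star : ∀ k, p ∈ U k → ∀ i, Om.idx i ∈ M →
      (b i ∈ U k ↔ i ∈ label U F (sep c F) t k) := by
    intro k hpk i hi
    have hk : good k := hz0 k ⟨p, ⟨hpq, hp0, t, ht, fun i hi => hpt i (Or.inl hi)⟩, hpk⟩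
    have hl : label U F (sep c F) t k = ek k := by
      refine label_eq U hz1 (hF k) ?_
      intro j hj
      rw [← hek2 k hk j (r1 _ hz1M hz1c j hj)]
      exact ult_congr (hU k) hpk (hpt j (Or.inr hj))
    rw [hl]
    exact hek2 k hk i hi
  refine ⟨_, hlab, p, hpq, hp0, star, ?_⟩
  intro k hpk i j hij hi
  by_contra hj
  have h : ∃ p : I × I, E p.1 p.2 ∈ U k ∧ p.1 ∈ label U F (sep c F) t k ∧
      p.2 ∉ label U F (sep c F) t k := ⟨(i, j), hij, hi, hj⟩
  obtain ⟨h1, h2, h3⟩ := Classical.choose_spec h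
  have hl : Om.idx (Classical.choose h).1 ∈ M :=
    hR [Om.lab (label U F (sep c F) t)] (by simpa using hlab) (Rule.left _ k h)
  have hr : Om.idx (Classical.choose h).2 ∈ M :=
    hR [Om.lab (label U F (sep c F) t)] (by simpa using hlab) (Rule.right _ k h)
  have h4 := (star k hpk _ hl).2 h2
  have h5 := (hU k).up _ ((hU k).inf _ h4 _ h1) _ (hb _ _)
  exact h3 ((star k hpk _ hr).1 h5)

/-- The combinatorial heart. -/
theorem core : CoreStatement.{u} := by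
  intro I B K _ c hc hK E hE1 hE2 hE3 U hU hcov
  refine ⟨fun l => {x | Rule c E U l x}, fun l => mk_rule c E U hc hK l, ?_⟩
  intro S hS q b hq hb hdec
  have h1 : ∀ M ∈ S, ∃ e : K → Set I, Om.lab e ∈ M ∧ ∃ p ≤ q M, p ≠ ⊥ ∧
      (∀ k, p ∈ U k → ∀ i, Om.idx i ∈ M → (b M i ∈ U k ↔ i ∈ e k)) ∧
      ∀ k, p ∈ U k → ∀ i j, E i j ∈ U k → i ∈ e k → j ∈ e k := fun M hM =>
    core_one hc hU (hS M hM).1 (hS M hM).2 (hq M hM) (hb M hM) (hdec M hM)
  choose! e he p hpq hp0 hstar hresp using h1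
  let G : (K → Set I) → I → B := fun e' i =>
    ⨆ M : {M // M ∈ S ∧ e M = e'}, ⨆ j : {j // Om.idx j ∈ M.1}, p M.1 ⊓ b M.1 j.1 ⊓ E j.1 i
  refine ⟨G, ?_, ?_⟩
  · intro e' i j
    simp only [G]
    rw [iSup_inf_eq]
    refine iSup_le fun M => ?_
    rw [iSup_inf_eq]
    refine iSup_le fun l => ?_
    refine le_trans ?_ (le_iSup_of_le M (le_iSup_of_le l le_rfl))
    rw [inf_assoc]
    exact inf_le_inf_left _ (hE3 _ _ _)
  · intro M hM
    refine ⟨e M, he M hM, p M, hpq M hM, hp0 M hM, ?_⟩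
    intro i hi
    refine le_antisymm (le_inf inf_le_left ?_) (le_inf inf_le_left ?_)
    · refine le_iSup_of_le ⟨M, hM, rfl⟩ (le_iSup_of_le ⟨i, hi⟩ ?_)
      rw [hE1, inf_top_eq]
    · simp only [G]
      rw [inf_iSup_eq]
      refine iSup_le fun N => ?_
      rw [inf_iSup_eq]
      refine iSup_le fun j => ?_
      obtain ⟨N, hN, hNe⟩ := N
      obtain ⟨j, hj⟩ := j
      simp only
      by_contra hnot
      have hx : p M ⊓ (p N ⊓ b N j ⊓ E j i) ⊓ (b M i)ᶜ ≠ ⊥ := by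
        intro h0
        exact hnot (by rwa [← sdiff_eq, sdiff_eq_bot_iff] at h0)
      obtain ⟨k, hk⟩ := hcov _ hx
      have hu := hU k
      rw [ult_inf_iff hu, ult_inf_iff hu, ult_inf_iff hu, ult_inf_iff hu,
        ult_compl_iff hu] at hk
      obtain ⟨⟨hpM, ⟨hpN, hbN⟩, hEji⟩, hbM⟩ := hk
      have hje : j ∈ e N k := (hstar N hN k hpN j hj).1 hbN
      rw [hNe] at hje
      exact hbM ((hstar M hM k hpM i hi).2 (hresp M hM k hpM j i hEji hje))

end Pool.Agent.Lib.MP_100a6c_lc.H36
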