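import Pool.Agent.Lib.MP_100a6c_lc.IfaceB

/-!
# OMEGA: `ω` is a regular cardinal with `ω^{<ω} = ω` in `V^B`
-/

universe u v

open scoped symmDiff
open Cardinal

namespace Pool.Agent.Lib.MP_100a6c_lc.H36

open BName

variable {B : Type u} [CompleteBooleanAlgebra B]

/-- The natural number `n` as a set. -/
noncomputable def nn (n : ℕ) : ZFSet.{u} := (n : Ordinal.{u}).toZFSet

/-- `ω` as a set. -/
noncomputable def om : ZFSet.{u} := Ordinal.omega0.{u}.toZFSet

theorem nn_inj {m n : ℕ} (h : nn.{u} m = nn n) : m = n := by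
  have := Ordinal.toZFSet_injective h
  exact_mod_cast this

theorem mem_nn {n : ℕ} {z : ZFSet.{u}} : z ∈ nn n ↔ ∃ k < n, z = nn k := by
  rw [nn, Ordinal.mem_toZFSet_iff]
  constructor
  · rintro ⟨a, ha, rfl⟩
    obtain ⟨k, rfl⟩ := Ordinal.lt_omega0.1 (ha.trans (Ordinal.natCast_lt_omega0 n))
    exact ⟨k, by exact_mod_cast ha, rfl⟩
  · rintro ⟨k, hk, rfl⟩
    exact ⟨k, by exact_mod_cast hk, rfl⟩

theorem mem_om {z : ZFSet.{u}} : z ∈ om.{u} ↔ ∃ k : ℕ, z = nn k := by
  rw [om, Ordinal.mem_toZFSet_iff]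
  constructor
  · rintro ⟨a, ha, rfl⟩
    obtain ⟨k, rfl⟩ := Ordinal.lt_omega0.1 ha
    exact ⟨k, rfl⟩
  · rintro ⟨k, rfl⟩
    exact ⟨k, Ordinal.natCast_lt_omega0 k, rfl⟩

theorem nn_mem_om (k : ℕ) : nn.{u} k ∈ om.{u} := mem_om.2 ⟨k, rfl⟩

theorem nn_mem_nn {k n : ℕ} (h : k < n) : nn.{u} k ∈ nn.{u} n := mem_nn.2 ⟨k, h, rfl⟩

theorem mem_check_om (y : BName B) : bmem y (check om) = ⨆ m : ℕ, beq y (check (nn m)) := by
  rw [mem_check]
  refine le_antisymm (iSup_le fun x => iSup_le fun hx => ?_) (iSup_le fun m => ?_)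
  · obtain ⟨m, rfl⟩ := mem_om.1 hx
    exact le_iSup (fun m : ℕ => beq y (check (nn m))) m
  · exact le_iSup_of_le (nn m) (le_iSup_of_le (nn_mem_om m) le_rfl)

theorem mem_check_nn (n : ℕ) (y : BName B) :
    bmem y (check (nn n)) = ⨆ k : Fin n, beq y (check (nn k)) := by
  rw [mem_check]
  refine le_antisymm (iSup_le fun x => iSup_le fun hx => ?_) (iSup_le fun m => ?_)
  · obtain ⟨m, hm, rfl⟩ := mem_nn.1 hx
    exact le_iSup (fun m : Fin n => beq y (check (nn m))) ⟨m, hm⟩
  · exact le_iSup_of_le (nn m) (le_iSup_of_le (nn_mem_nn m.2) le_rfl)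

/-- Finite distributivity. -/
theorem fin_dist (n : ℕ) (Γ : B) (a : Fin n → ℕ → B) (h : ∀ k, Γ ≤ ⨆ m, a k m) :
    Γ ≤ ⨆ v : Fin n → ℕ, ⨅ k, a k (v k) := by
  induction n with
  | zero => exact le_iSup_of_le Fin.elim0 (le_iInf fun k => k.elim0)
  | succ n ih =>
    have h1 := ih (fun k => a k.succ) (fun k => h k.succ)
    refine (le_inf (h 0) h1).trans ?_
    rw [iSup_inf_iSup]
    refine iSup_le fun p => le_iSup_of_le (Fin.cons p.1 p.2) (le_iInf fun k => ?_)
    refine Fin.cases ?_ (fun j => ?_) k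
    · exact inf_le_left
    · exact inf_le_right.trans (iInf_le _ j)

/-- Domain and range of a function. -/
theorem isFun_rel_mem {s a b x y : BName B} {Γ : B} (hs : Γ ≤ (VB B).isFun s a b)
    (h : Γ ≤ (VB B).rel s x y) : Γ ≤ bmem x a ∧ Γ ≤ bmem y b := by
  have h1 : Γ ≤ ⨅ p, (VB B).mem p s ⇨ ⨆ x, ⨆ y, (VB B).mem x a ⊓ (VB B).mem y b ⊓
    (VB B).isPair p x y := hs.trans (inf_le_left.trans inf_le_left)
  rw [rel_eq] at h
  have h2 := iInf_himp_apply h1 (opr x y) le_rfl h
  simp only [isPair_eq, beq_opr, VB_mem] at h2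
  constructor
  · refine h2.trans (iSup_le fun x' => iSup_le fun y' => ?_)
    exact (ext_mem_left a).of_le' (x := x') (inf_le_right.trans inf_le_left)
      (inf_le_left.trans inf_le_left)
  · refine h2.trans (iSup_le fun x' => iSup_le fun y' => ?_)
    exact (ext_mem_left b).of_le' (x := y') (inf_le_right.trans inf_le_right)
      (inf_le_left.trans inf_le_right)

theorem isFun_functional {s a b x y y' : BName B} {Γ : B} (hs : Γ ≤ (VB B).isFun s a b)
    (h : Γ ≤ (VB B).rel s x y) (h' : Γ ≤ (VB B).rel s x y') : Γ ≤ beq y y' := by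
  have h1 : Γ ≤ (VB B).rel s x y ⊓ (VB B).rel s x y' ⇨ (VB B).eq y y' :=
    (hs.trans inf_le_right).trans (iInf_le_of_le _ (iInf_le_of_le _ (iInf_le _ _)))
  rw [le_himp_iff] at h1
  exact le_trans (le_inf le_rfl (le_inf h h')) h1

theorem isFun_total {s a b x : BName B} {Γ : B} (hs : Γ ≤ (VB B).isFun s a b)
    (h : Γ ≤ bmem x a) : Γ ≤ ⨆ y, (VB B).rel s x y :=
  iInf_himp_apply (hs.trans (inf_le_left.trans inf_le_right)) x le_rfl h

/-- The value of a function to `ω` is a mixture of natural numbers. -/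
theorem isFun_value (s : BName B) (n : ℕ) (k : Fin n) :
    (VB B).isFun s (check (nn n)) (check om) ≤
      ⨆ m : ℕ, (VB B).rel s (check (nn k)) (check (nn m)) := by
  have h := isFun_total (s := s) (a := check (nn n)) (b := check om) (x := check (nn k)) le_rfl
    (by rw [mem_check_of_mem (nn_mem_nn k.2)]; exact le_top)
  refine (le_inf le_rfl h).trans ?_
  rw [inf_iSup_eq]
  refine iSup_le fun y => ?_
  have h2 := (isFun_rel_mem (s := s) (a := check (nn n)) (b := check om) (x := check (nn k))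
    (y := y) (Γ := (VB B).isFun s (check (nn n)) (check om) ⊓ (VB B).rel s (check (nn k)) y)
    inf_le_left inf_le_right).2
  rw [mem_check_om] at h2
  refine (le_inf inf_le_right h2).trans ?_
  rw [inf_iSup_eq]
  refine iSup_mono fun m => ?_
  exact (ext_rel_trd s (check (nn k))).of_le inf_le_right inf_le_left

theorem isFun_values (s : BName B) (n : ℕ) :
    (VB B).isFun s (check (nn n)) (check om) ≤
      ⨆ v : Fin n → ℕ, ⨅ k : Fin n, (VB B).rel s (check (nn k)) (check (nn (v k))) :=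
  fin_dist n _ (fun k m => (VB B).rel s (check (nn k)) (check (nn m))) fun k => isFun_value s n k

/-- The name of the finite sequence `v`. -/
noncomputable def fn (n : ℕ) (v : Fin n → ℕ) : BName B :=
  relFam (ι := ULift.{u} (Fin n)) (fun k => check (nn k.down)) (fun k => check (nn (v k.down)))
    fun _ => ⊤

theorem rel_fn (n : ℕ) (v : Fin n → ℕ) (a b : BName B) :
    (VB B).rel (fn n v) a b = ⨆ k : Fin n, beq a (check (nn k)) ⊓ beq b (check (nn (v k))) := by
  rw [fn, rel_relFam]
  refine le_antisymm (iSup_le fun k => ?_) (iSup_le fun k => ?_)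
  · exact le_iSup_of_le k.down inf_le_right
  · exact le_iSup_of_le ⟨k⟩ (by rw [top_inf_eq])

theorem rel_fn_self (n : ℕ) (v : Fin n → ℕ) (k : Fin n) :
    (VB B).rel (fn n v) (check (nn k)) (check (nn (v k))) = ⊤ := by
  rw [rel_fn, eq_top_iff]
  refine le_iSup_of_le k ?_
  rw [beq_refl, beq_refl, inf_top_eq]

theorem isFun_fn (n : ℕ) (v : Fin n → ℕ) :
    (VB B).isFun (fn n v) (check (nn n)) (check om) = ⊤ := by
  rw [eq_top_iff]
  refine le_inf (le_inf ?_ ?_) ?_
  · refine le_iInf fun p => ?_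
    rw [le_himp_iff, top_inf_eq]
    change (⨆ i : ULift.{u} (Fin n), ⊤ ⊓ beq p (opr (check (nn i.down)) (check (nn (v i.down))))) ≤ _
    refine iSup_le fun i => ?_
    refine le_iSup_of_le (check (nn i.down)) (le_iSup_of_le (check (nn (v i.down))) ?_)
    refine le_inf (le_inf ?_ ?_) ?_
    · rw [VB_mem, mem_check_of_mem (nn_mem_nn i.down.2)]; exact le_top
    · rw [VB_mem, mem_check_of_mem (nn_mem_om _)]; exact le_top
    · rw [isPair_eq]; exact inf_le_right
  · refine le_trans ?_ (iInf_VBcheck (Ext.iSup fun y => ext_rel_snd (fn n v) y) (nn n)).ge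
    refine le_iInf fun a => le_iInf fun ha => ?_
    obtain ⟨k, hk, rfl⟩ := mem_nn.1 ha
    refine le_iSup_of_le (check (nn (v ⟨k, hk⟩))) ?_
    exact (rel_fn_self n v ⟨k, hk⟩).ge
  · refine le_iInf fun x => le_iInf fun y => le_iInf fun y' => ?_
    rw [le_himp_iff, top_inf_eq, rel_fn, rel_fn, iSup_inf_iSup]
    refine iSup_le fun ⟨k, k'⟩ => ?_
    change beq x (check (nn k)) ⊓ beq y (check (nn (v k))) ⊓
      (beq x (check (nn k')) ⊓ beq y' (check (nn (v k')))) ≤ beq y y'
    by_cases hk : k = k'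
    · subst hk
      exact (ext_eq_right y).of_le' (x := check (nn (v k))) (inf_le_right.trans inf_le_right)
        (inf_le_left.trans inf_le_right)
    · refine le_trans ?_ bot_le
      rw [← beq_check_of_ne (B := B) (fun h => hk (Fin.ext (nn_inj h)))]
      exact (ext_eq_left (check (nn k'))).of_le (x := x) (inf_le_left.trans inf_le_left)
        (inf_le_right.trans inf_le_left)

/-- A function with the values `v` is `fn n v`. -/
theorem beq_fn {s : BName B} {n : ℕ} {v : Fin n → ℕ} {Γ : B}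
    (hs : Γ ≤ (VB B).isFun s (check (nn n)) (check om))
    (hv : ∀ k : Fin n, Γ ≤ (VB B).rel s (check (nn k)) (check (nn (v k)))) :
    Γ ≤ beq s (fn n v) := by
  refine le_trans (le_inf ?_ ?_) (sub_inf_sub_le s (fn n v))
  · refine le_iInf fun z => ?_
    rw [le_himp_iff]
    have h1 : Γ ≤ ⨅ p, (VB B).mem p s ⇨ ⨆ x, ⨆ y, (VB B).mem x (check (nn n)) ⊓
      (VB B).mem y (check om) ⊓ (VB B).isPair p x y := hs.trans (inf_le_left.trans inf_le_left)
    have h2 := iInf_himp_apply h1 z (Δ := Γ ⊓ (VB B).mem z s) inf_le_left inf_le_right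
    refine (le_inf le_rfl h2).trans ?_
    rw [inf_iSup_eq]
    refine iSup_le fun x => ?_
    rw [inf_iSup_eq]
    refine iSup_le fun y => ?_
    rw [isPair_eq, VB_mem, VB_mem, VB_mem, VB_mem]
    set Δ := Γ ⊓ bmem z s ⊓ (bmem x (check (nn n)) ⊓ bmem y (check om) ⊓ beq z (opr x y)) with hΔ
    have e1 : Δ ≤ beq z (opr x y) := inf_le_right.trans inf_le_right
    have e2 : Δ ≤ bmem x (check (nn n)) := inf_le_right.trans (inf_le_left.trans inf_le_left)
    have e3 : Δ ≤ bmem z s := inf_le_left.trans inf_le_right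
    have e4 : Δ ≤ (VB B).rel s x y := by
      rw [rel_eq]
      exact (ext_mem_left s).of_le e1 e3
    have e5 : Δ ≤ Γ := inf_le_left.trans inf_le_left
    rw [mem_check_nn] at e2
    refine (le_inf le_rfl e2).trans ?_
    rw [inf_iSup_eq]
    refine iSup_le fun k => ?_
    have e6 : Δ ⊓ beq x (check (nn k)) ≤ (VB B).rel s (check (nn k)) y :=
      (ext_rel_snd s y).of_le inf_le_right (inf_le_left.trans e4)
    have e7 : Δ ⊓ beq x (check (nn k)) ≤ beq y (check (nn (v k))) :=
      isFun_functional (inf_le_left.trans (e5.trans hs)) e6 (inf_le_left.trans (e5.trans (hv k)))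
    refine (ext_mem_left (fn n v)).of_le' (x := opr x y) (inf_le_left.trans ?_) ?_
    · exact e1
    · rw [← rel_eq, rel_fn]
      exact le_iSup_of_le k (le_inf inf_le_right e7)
  · rw [le_sub_iff]
    intro i
    refine inf_le_left.trans ?_
    have := hv (ULift.down i)
    rw [rel_eq] at this
    exact this

theorem isReg_om : (VB B).isReg (check om) = ⊤ := by
  rw [eq_top_iff]
  refine le_inf (le_inf (le_inf ?_ ?_) ?_) ?_
  · rw [isOrd_check]
    exact ZFSet.isOrdinal_toZFSet _
  · refine le_iSup_of_le (check (nn 0)) ?_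
    rw [VB_mem, mem_check_of_mem (nn_mem_om 0)]
  · refine le_trans ?_ (iInf_VBcheck (Ext.iSup fun y => (Ext.const _).inf (ext_mem_left y)) om).ge
    refine le_iInf fun a => le_iInf fun ha => ?_
    obtain ⟨k, rfl⟩ := mem_om.1 ha
    refine le_iSup_of_le (check (nn (k + 1))) (le_inf ?_ ?_)
    · rw [VB_mem, mem_check_of_mem (nn_mem_om _)]
    · rw [mem_check_of_mem (nn_mem_nn (Nat.lt_succ_self k))]
  · refine le_trans ?_ (iInf_VBcheck (Ext.iInf fun f => (ext_isFun_snd f (check om)).himp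
      (Ext.const _)) om).ge
    refine le_iInf fun a => le_iInf fun ha => le_iInf fun f => ?_
    obtain ⟨n, rfl⟩ := mem_om.1 ha
    rw [le_himp_iff, top_inf_eq]
    refine (le_inf le_rfl (isFun_values f n)).trans ?_
    rw [inf_iSup_eq]
    refine iSup_le fun v => ?_
    set Γ := (VB B).isFun f (check (nn n)) (check om) ⊓
      ⨅ k : Fin n, (VB B).rel f (check (nn k)) (check (nn (v k))) with hΓ
    have hv : ∀ k : Fin n, Γ ≤ (VB B).rel f (check (nn k)) (check (nn (v k))) := fun k =>
      inf_le_right.trans (iInf_le _ k)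
    refine le_iSup_of_le (check (nn (Finset.univ.sup v + 1))) (le_inf ?_ ?_)
    · rw [VB_mem, mem_check_of_mem (nn_mem_om _)]; exact le_top
    · refine le_iInf fun x => le_iInf fun y => ?_
      rw [le_himp_iff]
      have h1 := (isFun_rel_mem (s := f) (a := check (nn n)) (b := check om) (x := x) (y := y)
        (Γ := Γ ⊓ (VB B).rel f x y) (inf_le_left.trans inf_le_left) inf_le_right).1
      rw [mem_check_nn] at h1
      refine (le_inf le_rfl h1).trans ?_
      rw [inf_iSup_eq]
      refine iSup_le fun k => ?_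
      have e6 : Γ ⊓ (VB B).rel f x y ⊓ beq x (check (nn k)) ≤ (VB B).rel f (check (nn k)) y :=
        (ext_rel_snd f y).of_le inf_le_right (inf_le_left.trans inf_le_right)
      have e7 : Γ ⊓ (VB B).rel f x y ⊓ beq x (check (nn k)) ≤ beq y (check (nn (v k))) :=
        isFun_functional ((inf_le_left.trans inf_le_left).trans inf_le_left) e6
          ((inf_le_left.trans inf_le_left).trans (hv k))
      refine (ext_mem_left _).of_le' (x := check (nn (v k))) e7 ?_
      rw [mem_check_of_mem (nn_mem_nn (Nat.lt_succ_of_le (Finset.le_sup (Finset.mem_univ k))))]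
      exact le_top

theorem std_om : (VB B).std (check om) = ⊤ := by
  rw [eq_top_iff]
  refine le_inf (isReg_om).ge ?_
  refine le_iSup_of_le (mk (ULift.{u} (Σ n : ℕ, (Fin n → ℕ))) (fun i => fn i.down.1 i.down.2)
    fun _ => ⊤) (le_inf (le_iInf fun s => ?_) ?_)
  · have e1 : (⨆ ξ, (VB B).mem ξ (check om) ⊓ (VB B).isFun s ξ (check om)) =
        (VB B).mem s (mk (ULift.{u} (Σ n : ℕ, (Fin n → ℕ))) (fun i => fn i.down.1 i.down.2)
          fun _ => ⊤) := by
      rw [iSup_VBcheck (ext_isFun_snd s (check om)), VB_mem, mem_mk]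
      refine le_antisymm (iSup_le fun x => iSup_le fun hx => ?_) (iSup_le fun i => ?_)
      · obtain ⟨n, rfl⟩ := mem_om.1 hx
        refine (le_inf le_rfl (isFun_values s n)).trans ?_
        rw [inf_iSup_eq]
        refine iSup_le fun v => le_iSup_of_le ⟨⟨n, v⟩⟩ ?_
        rw [top_inf_eq]
        exact beq_fn inf_le_left fun k => inf_le_right.trans (iInf_le _ k)
      · rw [top_inf_eq]
        refine le_iSup_of_le (nn i.down.1) (le_iSup_of_le (nn_mem_om _) ?_)
        refine (ext_isFun_fst _ _).of_le' (x := fn i.down.1 i.down.2) le_rfl ?_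
        rw [isFun_fn]; exact le_top
    rw [e1, bihimp_self]
  · have h := le_leCard_of_enum (Γ := (⊤ : B)) (x := mk (ULift.{u} (Σ n : ℕ, (Fin n → ℕ)))
      (fun i => fn i.down.1 i.down.2) fun _ => ⊤)
      (Y := ULift.{u} (Σ n : ℕ, (Fin n → ℕ))) (t := fun i => fn i.down.1 i.down.2) ℵ₀
      (Cardinal.mk_le_aleph0) (fun z => by
        rw [top_inf_eq, mem_mk]
        exact iSup_mono fun i => inf_le_right)
    rw [Cardinal.ord_aleph0] at h
    exact h

/-- OMEGA. -/
theorem omega : OmegaStatement.{u} := fun _ _ => std_om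

end Pool.Agent.Lib.MP_100a6c_lc.H36
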