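import Pool.Agent.Lib.MP_100a6c_lc.IfaceC
import Pool.Agent.Lib.MP_100a6c_lc.H36.Omega

/-!
# PD: a regular cardinal above the size of `B` remains regular in `V^B`
-/

universe u v

open scoped symmDiff
open Cardinal Order

namespace Pool.Agent.Lib.MP_100a6c_lc.H36

open BName

/-- PD. -/
theorem pd : PDStatement.{u} := by
  intro B _ d hd hB
  have hlim : IsSuccLimit d.ord := Cardinal.isSuccLimit_ord hd.aleph0_le
  rw [eq_top_iff]
  refine le_inf (le_inf (le_inf ?_ ?_) ?_) ?_
  · rw [Kap, isOrd_check (ZFSet.isOrdinal_toZFSet _)]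
  · refine le_iSup_of_le (check (Ordinal.toZFSet 0)) ?_
    rw [VB_mem, Kap, mem_check_of_mem (Ordinal.toZFSet_mem_toZFSet_iff.2 hd.ord_pos)]
  · refine le_trans ?_ (iInf_VBcheck (Ext.iSup fun y => (Ext.const _).inf (ext_mem_left y))
      (Kap d)).ge
    refine le_iInf fun a => le_iInf fun ha => ?_
    obtain ⟨r, hr, rfl⟩ := Ordinal.mem_toZFSet_iff.1 ha
    refine le_iSup_of_le (check (succ r).toZFSet) (le_inf ?_ ?_)
    · rw [VB_mem, Kap, mem_check_of_mem (Ordinal.toZFSet_mem_toZFSet_iff.2 (hlim.succ_lt hr))]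
    · rw [mem_check_of_mem (Ordinal.toZFSet_mem_toZFSet_iff.2 (lt_succ r))]
  · refine le_trans ?_ (iInf_VBcheck (Ext.iInf fun f => (ext_isFun_snd f (check (Kap d))).himp
      (Ext.const _)) (Kap d)).ge
    refine le_iInf fun a => le_iInf fun ha => le_iInf fun f => ?_
    obtain ⟨r, hr, rfl⟩ := Ordinal.mem_toZFSet_iff.1 ha
    rw [le_himp_iff, top_inf_eq]
    set Γ := (VB B).isFun f (check r.toZFSet) (check (Kap d)) with hΓ
    let ι := {p : r.ToType × d.ord.ToType //
      Γ ⊓ (VB B).rel f (check (p.1.toOrd : Ordinal).toZFSet) (check (p.2.toOrd : Ordinal).toZFSet) ≠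
        ⊥}
    have hι : #ι < d := by
      have h1 : #ι ≤ #(r.ToType × B) := by
        refine Cardinal.mk_le_of_injective (f := fun p : ι => (p.1.1,
          Γ ⊓ (VB B).rel f (check (p.1.1.toOrd : Ordinal).toZFSet)
            (check (p.1.2.toOrd : Ordinal).toZFSet))) ?_
        rintro ⟨⟨i, j⟩, h⟩ ⟨⟨i', j'⟩, h'⟩ e
        simp only [Prod.mk.injEq] at e
        obtain ⟨rfl, e⟩ := e
        by_contra hne
        apply h
        rw [eq_bot_iff]
        have hj : (j.toOrd : Ordinal).toZFSet ≠ (j'.toOrd : Ordinal).toZFSet := by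
          intro h0
          apply hne
          have h2 := Ordinal.toZFSet_injective h0
          have h3 : j = j' := Ordinal.ToType.mk.symm.injective (Subtype.ext h2)
          subst h3
          rfl
        change Γ ⊓ (VB B).rel f (check (i.toOrd : Ordinal).toZFSet)
          (check (j.toOrd : Ordinal).toZFSet) ≤ ⊥
        rw [← beq_check_of_ne (B := B) hj]
        exact isFun_functional (s := f) inf_le_left inf_le_right (e.le.trans inf_le_right)
      refine h1.trans_lt ?_
      rw [Cardinal.mk_prod, Cardinal.lift_id, Cardinal.lift_id]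
      refine Cardinal.mul_lt_of_lt hd.aleph0_le ?_ hB
      rw [Cardinal.mk_toType]
      exact Cardinal.lt_ord.1 hr
    have hι' : #ι < d.ord.cof := by rwa [hd.cof_ord]
    have hlt := Ordinal.iSup_add_one_lt_of_lt_cof (f := fun p : ι => (p.1.2.toOrd : Ordinal)) hι'
      (fun p => p.1.2.toOrd.2)
    refine le_iSup_of_le (check (⨆ p : ι, ((p.1.2.toOrd : Ordinal) + 1)).toZFSet) (le_inf ?_ ?_)
    · rw [VB_mem, Kap, mem_check_of_mem (Ordinal.toZFSet_mem_toZFSet_iff.2 hlt)]; exact le_top
    · refine le_iInf fun x => le_iInf fun y => ?_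
      rw [le_himp_iff]
      have h1 := isFun_rel_mem (s := f) (a := check r.toZFSet) (b := check (Kap d)) (x := x)
        (y := y) (Γ := Γ ⊓ (VB B).rel f x y) inf_le_left inf_le_right
      have h2 := le_inf h1.1 h1.2
      rw [mem_check, mem_check] at h2
      refine (le_inf le_rfl h2).trans ?_
      rw [iSup_inf_eq, inf_iSup_eq]
      refine iSup_le fun a => ?_
      rw [iSup_inf_eq, inf_iSup_eq]
      refine iSup_le fun ha => ?_
      rw [inf_iSup_eq, inf_iSup_eq]
      refine iSup_le fun b => ?_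
      rw [inf_iSup_eq, inf_iSup_eq]
      refine iSup_le fun hb => ?_
      obtain ⟨a, har, rfl⟩ := Ordinal.mem_toZFSet_iff.1 ha
      obtain ⟨b, hbr, rfl⟩ := Ordinal.mem_toZFSet_iff.1 hb
      set Δ := Γ ⊓ (VB B).rel f x y ⊓ (beq x (check a.toZFSet) ⊓ beq y (check b.toZFSet)) with hΔ
      have e1 : Δ ≤ Γ ⊓ (VB B).rel f (check a.toZFSet) (check b.toZFSet) := by
        refine le_inf (inf_le_left.trans inf_le_left) ?_
        refine (ext_rel_snd f _).of_le (x := x) (inf_le_right.trans inf_le_left) ?_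
        exact (ext_rel_trd f _).of_le (x := y) (inf_le_right.trans inf_le_right)
          (inf_le_left.trans inf_le_right)
      by_cases hbot : Γ ⊓ (VB B).rel f (check a.toZFSet) (check b.toZFSet) = ⊥
      · exact (e1.trans hbot.le).trans bot_le
      · refine (ext_mem_left _).of_le' (x := check b.toZFSet) (inf_le_right.trans inf_le_right) ?_
        rw [mem_check_of_mem]
        · exact le_top
        · rw [Ordinal.toZFSet_mem_toZFSet_iff]
          have hi : ((Ordinal.ToType.mk ⟨a, har⟩ : r.ToType).toOrd : Ordinal) = a := by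
            simp [Ordinal.ToType.toOrd]
          have hj : ((Ordinal.ToType.mk ⟨b, hbr⟩ : d.ord.ToType).toOrd : Ordinal) = b := by
            simp [Ordinal.ToType.toOrd]
          have h5 := Ordinal.lt_iSup_add_one (fun p : ι => (p.1.2.toOrd : Ordinal))
            ⟨(Ordinal.ToType.mk ⟨a, har⟩, Ordinal.ToType.mk ⟨b, hbr⟩), by
              rw [hi, hj]; exact hbot⟩
          rw [hj] at h5
          exact h5

end Pool.Agent.Lib.MP_100a6c_lc.H36
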