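import Pool.Agent.Lib.MP_100a6c_lc.IfaceC

/-!
# PE: the set of all subsets of `H` of size `≤ μ` is closed unbounded
-/

universe u v

open scoped symmDiff
open Cardinal Order

namespace Pool.Agent.Lib.MP_100a6c_lc.H36

open BName

variable {B : Type u} [CompleteBooleanAlgebra B]

/-- The power set of `H`. -/
def pow (H : BName B) : BName B := mk (H.ix → B) (fun f => mk H.ix H.nm f) fun _ => ⊤

theorem sub_le_mem_pow (x H : BName B) : (VB B).sub x H ≤ bmem x (pow H) := by
  rw [pow, mem_mk]
  refine le_iSup_of_le (fun j => bmem (H.nm j) x) ?_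
  rw [top_inf_eq]
  refine le_trans (le_inf ?_ ?_) (sub_inf_sub_le _ _)
  · refine le_iInf fun z => ?_
    rw [le_himp_iff]
    have h : (VB B).sub x H ⊓ (VB B).mem z x ≤ bmem z H :=
      sub_apply le_rfl z inf_le_left inf_le_right
    rw [bmem_def] at h
    refine (le_inf le_rfl h).trans ?_
    rw [inf_iSup_eq, VB_mem, VB_mem, mem_mk]
    refine iSup_mono fun j => le_inf ?_ (inf_le_right.trans inf_le_right)
    exact (ext_mem_left x).of_le (x := z) (inf_le_right.trans inf_le_right)
      (inf_le_left.trans inf_le_right)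
  · rw [le_sub_iff]
    intro i
    exact inf_le_right

/-- The set of all subsets of `H` of size `≤ m`. -/
def powc (H m : BName B) : BName B := sepn (pow H) fun x => (VB B).sub x H ⊓ (VB B).leCard x m

theorem mem_powc (H m x : BName B) :
    bmem x (powc H m) = (VB B).sub x H ⊓ (VB B).leCard x m := by
  rw [powc, mem_sepn ((ext_sub_left H).inf (ext_leCard_left m))]
  exact inf_eq_right.2 (inf_le_left.trans (sub_le_mem_pow x H))

/-- PE. -/
theorem pe : PEStatement.{u} := by
  intro B _ c hc H
  refine ⟨powc H (check (Mu c)), ?_⟩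
  rw [eq_top_iff]
  refine le_inf (le_inf ?_ ?_) ?_
  · refine le_iInf fun x => ?_
    rw [le_himp_iff, top_inf_eq, VB_mem, mem_powc]
  · refine le_iInf fun x => ?_
    rw [le_himp_iff, top_inf_eq]
    refine le_iSup_of_le x (le_inf ?_ ?_)
    · rw [VB_mem, mem_powc]
    · refine le_iInf fun z => ?_
      rw [himp_self]
      exact le_top
  · refine le_iInf fun D => ?_
    rw [le_himp_iff, top_inf_eq]
    refine le_iInf fun w => ?_
    rw [le_himp_iff]
    set Γ := (VB B).sub D (powc H (check (Mu c))) ⊓ (⨆ c, (VB B).mem c D) ⊓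
      (VB B).leCard D (check (Mu c)) ⊓ (⨅ c, ⨅ c', (VB B).mem c D ⊓ (VB B).mem c' D ⇨
        (VB B).sub c c' ⊔ (VB B).sub c' c) ⊓ (⨅ y, (VB B).mem y w ⇔
          (⨆ c, (VB B).mem c D ⊓ (VB B).mem y c)) with hΓ
    have e1 : Γ ≤ (VB B).sub D (powc H (check (Mu c))) :=
      inf_le_left.trans (inf_le_left.trans (inf_le_left.trans inf_le_left))
    have e2 : Γ ≤ (VB B).leCard D (check (Mu c)) :=
      inf_le_left.trans (inf_le_left.trans inf_le_right)
    have e3 : ∀ y, Γ ⊓ bmem y w ≤ ⨆ c, Γ ⊓ (bmem c D ⊓ bmem y c) := by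
      intro y
      have h1 : Γ ≤ (VB B).mem y w ⇔ (⨆ c, (VB B).mem c D ⊓ (VB B).mem y c) :=
        inf_le_right.trans (iInf_le _ y)
      rw [le_bihimp_iff'] at h1
      rw [← inf_iSup_eq]
      exact h1.le
    rw [VB_mem, mem_powc]
    refine le_inf ?_ ?_
    · refine le_iInf fun y => ?_
      rw [le_himp_iff]
      refine (e3 y).trans (iSup_le fun x => ?_)
      have h1 : Γ ⊓ (bmem x D ⊓ bmem y x) ≤ bmem x (powc H (check (Mu c))) :=
        sub_apply e1 x inf_le_left (inf_le_right.trans inf_le_left)
      rw [mem_powc] at h1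
      exact sub_apply (h1.trans inf_le_left) y le_rfl (inf_le_right.trans inf_le_right)
    · have hK : #(succ c).ord.ToType = succ c := mk_ord_toType _
      obtain ⟨t, ht⟩ := exists_enum_type hK e2
      have h2 : ∀ k, ∃ s : (succ c).ord.ToType → BName B, Enum (Γ ⊓ bmem (t k) D) (t k) s := by
        intro k
        have h1 : Γ ⊓ bmem (t k) D ≤ bmem (t k) (powc H (check (Mu c))) :=
          sub_apply e1 (t k) inf_le_left inf_le_right
        rw [mem_powc] at h1
        exact exists_enum_type hK (h1.trans inf_le_right)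
      choose s hs using h2
      refine le_leCard_of_enum (Y := (succ c).ord.ToType × (succ c).ord.ToType)
        (t := fun p => s p.1 p.2) (succ c) ?_ ?_
      · rw [Cardinal.mk_prod]
        simp only [Cardinal.lift_id, hK]
        rw [Cardinal.mul_eq_self (hc.trans (le_succ c))]
      · intro y
        refine (e3 y).trans (iSup_le fun x => ?_)
        have h3 : Γ ⊓ (bmem x D ⊓ bmem y x) ≤ ⨆ k, beq x (t k) :=
          (le_inf inf_le_left (inf_le_right.trans inf_le_left)).trans (ht x)
        refine (le_inf le_rfl h3).trans ?_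
        rw [inf_iSup_eq]
        refine iSup_le fun k => ?_
        have h4 : Γ ⊓ (bmem x D ⊓ bmem y x) ⊓ beq x (t k) ≤ Γ ⊓ bmem (t k) D ⊓ bmem y (t k) := by
          refine le_inf (le_inf (inf_le_left.trans inf_le_left) ?_) ?_
          · exact (ext_mem_left D).of_le (x := x) inf_le_right
              ((inf_le_left.trans inf_le_right).trans inf_le_left)
          · exact (ext_mem_right y).of_le (x := x) inf_le_right
              ((inf_le_left.trans inf_le_right).trans inf_le_right)
        refine (h4.trans (hs k y)).trans (iSup_le fun l => ?_)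
        exact le_iSup (fun p : (succ c).ord.ToType × (succ c).ord.ToType => beq y (s p.1 p.2))
          (k, l)

end Pool.Agent.Lib.MP_100a6c_lc.H36
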